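import Pool.Agent.H.MP_9e03f2_pr.C

set_option autoImplicit false

namespace Pool.Agent.Results.MP_9e03f2_pr.Superexp

open MeasureTheory ProbabilityTheory Filter Topology Function Pool.Agent.H.MP_9e03f2_pr
open scoped ENNReal unitInterval

theorem result (d : ℕ) :
    ∃ (E : Type) (_ : MeasurableSpace E) (_ : StandardBorelSpace E) (ν : Measure E) (_ : IsProbabilityMeasure ν)
      (F : ((Fin d → ℤ) → E) → (Fin d → ℤ) → Fin (64 ^ d)),
      Measurable F ∧
      (∀ y u, F (fun v => y (v + u)) = fun v => F y (v + u)) ∧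
      (∀ᵐ y ∂(Measure.infinitePi fun _ : Fin d → ℤ => ν), ∀ u v, ∑ j, |u j - v j| = 1 → F y u ≠ F y v) ∧
      (∀ A B : Set (Fin d → ℤ), (∀ a ∈ A, ∀ b ∈ B, 1 < ∑ j, |a j - b j|) →
        IndepFun (fun y (a : A) => F y a) (fun y (b : B) => F y b) (Measure.infinitePi fun _ : Fin d → ℤ => ν)) ∧
      (∀ᵐ y ∂(Measure.infinitePi fun _ : Fin d → ℤ => ν),
        ∃ r : ℕ, ∀ y', (∀ v : Fin d → ℤ, ∑ j, |v j| ≤ (r : ℤ) → y' v = y v) → F y' 0 = F y 0) ∧
      ∀ c : ℝ, ∀ᶠ r : ℕ in atTop, (Measure.infinitePi fun _ : Fin d → ℤ => ν)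
        {y | ¬ ∀ y', (∀ v : Fin d → ℤ, ∑ j, |v j| ≤ (r : ℤ) → y' v = y v) → F y' 0 = F y 0} ≤ ENNReal.ofReal (Real.exp (-c * r)) := by
  obtain ⟨G, mG, hs, hp, hI, ht⟩ := one64
  let ν1 : Measure (Bool → I) := Measure.infinitePi fun _ => volume
  let ln : Fin d → (Fin d → ℤ) → ((Fin d → ℤ) → Fin d → Bool → I) → ℤ → Bool → I :=
    fun j v y t => y (v + Pi.single j t) j
  let F : ((Fin d → ℤ) → Fin d → Bool → I) → (Fin d → ℤ) → Fin (64 ^ d) :=
    fun y v => finFunctionFinEquiv fun j => G (ln j v y) 0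
  set P : Measure ((Fin d → ℤ) → Fin d → Bool → I) := Measure.infinitePi fun _ => Measure.infinitePi fun _ => ν1
  have mp : ∀ j v, MeasurePreserving (ln j v) P (Measure.infinitePi fun _ => ν1) := fun j v =>
    (measurePreserving_eval_infinitePi _ ()).comp (reidx ν1 (fun z : Unit × ℤ => (v + Pi.single j z.2, j))
      fun z z' e => Prod.ext rfl (by simpa using congrFun (Prod.mk.inj e).1 j))
  have hl : ∀ j v y s, G (ln j (v + Pi.single j s) y) 0 = G (ln j v y) s := fun j v y s => by
    rw [← zero_add s, ← hs, zero_add]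
    congr 1; funext t
    simp only [ln, Pi.single_add, add_assoc, add_comm (Pi.single j s : Fin d → ℤ)]
  have mF : Measurable F := measurable_pi_lambda _ fun v => (measurable_of_finite _).comp
    (measurable_pi_lambda _ fun j => (measurable_pi_apply 0).comp (mG.comp (mp j v).measurable))
  have tl : ∀ c : ℝ, ∀ᶠ r : ℕ in atTop, P {y | ¬ ∀ y', (∀ v : Fin d → ℤ, ∑ j, |v j| ≤ (r : ℤ) → y' v = y v) → F y' 0 = F y 0}
      ≤ ENNReal.ofReal (Real.exp (-c * r)) := fun c => by
    obtain ⟨K, hK⟩ := ht (Real.exp (-(|c| + 1))) (Real.exp_pos _)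
    filter_upwards [eventually_ge_atTop 1, tendsto_natCast_atTop_atTop.eventually_ge_atTop
      (d * K * Real.exp (|c| + 1))] with r h1 h2
    calc _ ≤ P (⋃ j, ln j 0 ⁻¹' {y | ¬ ∀ y', (∀ j : ℤ, |j| ≤ r → y' j = y j) → G y' 0 = G y 0}) := by
          refine measure_mono fun y hy => ?_
          by_contra hn
          simp only [Set.mem_iUnion, Set.mem_preimage, Set.mem_setOf_eq, not_exists, not_not] at hn
          refine hy fun y' e => congrArg finFunctionFinEquiv (funext fun j => hn j (ln j 0 y') fun t h => ?_)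
          simp only [ln, zero_add]
          rw [e _ (by rwa [l1_single])]
      _ ≤ ∑ _j : Fin d, ENNReal.ofReal (K * Real.exp (-(|c| + 1)) ^ (r - 1)) :=
          (measure_iUnion_fintype_le _ _).trans (Finset.sum_le_sum fun j _ =>
            (Measure.le_map_apply (mp j 0).measurable.aemeasurable _).trans ((mp j 0).map_eq ▸ hK r))
      _ ≤ _ := by
          rw [Finset.sum_const, Finset.card_univ, Fintype.card_fin, nsmul_eq_mul, ← ENNReal.ofReal_natCast,
            ← ENNReal.ofReal_mul (by positivity), ← Real.exp_nat_mul, Nat.cast_sub h1]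
          refine ENNReal.ofReal_le_ofReal ?_
          rw [show ((r : ℝ) - (1 : ℕ)) * -(|c| + 1) = (|c| + 1) + (-|c| * r - r) by push_cast; ring, Real.exp_add,
            ← mul_assoc, ← mul_assoc, Real.exp_sub, ← mul_div_assoc, div_le_iff₀ (Real.exp_pos _), mul_comm (Real.exp _)]
          refine mul_le_mul (by linarith [Real.add_one_le_exp (r : ℝ)]) (Real.exp_le_exp.2 ?_) (Real.exp_pos _).le
            (Real.exp_pos _).le
          exact mul_le_mul_of_nonneg_right (neg_le_neg (le_abs_self c)) (by positivity)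
  refine ⟨Fin d → Bool → I, inferInstance, inferInstance, Measure.infinitePi fun _ => ν1, inferInstance, F, mF,
    fun y u => funext fun v => ?_, ?_, fun A B hAB => ?_, ?_, tl⟩
  · simp only [F, ln, add_right_comm v u]
  · have : ∀ᵐ y ∂P, ∀ j v, ∀ i, G (ln j v y) i ≠ G (ln j v y) (i + 1) :=
      ae_all_iff.2 fun j => ae_all_iff.2 fun v => (mp j v).quasiMeasurePreserving.ae hp
    filter_upwards [this] with y hy u v h e
    have k : ∀ j v, F y (v + Pi.single j 1) ≠ F y v := fun j v e =>
      hy j v 0 ((congrFun (finFunctionFinEquiv.injective e) j).symm.trans (hl j v y 1))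
    obtain ⟨j, h | h⟩ := l1_one (u - v) h
    · exact k j v (by rw [← h, add_sub_cancel, e])
    · exact k j u (by rw [← h, neg_sub, add_sub_cancel, e])
  · classical
    let α := {p : Fin d × (Fin d → ℤ) // p.2 p.1 = 0}
    let st : α → ℤ → Fin d → ℤ := fun i t => i.1.2 + Pi.single i.1.1 t
    haveI := Measure.isProbabilityMeasure_map (μ := Measure.infinitePi fun _ : ℤ => ν1) mG.aemeasurable
    have m1 := reidx ν1 (fun z : α × ℤ => (st z.1 z.2, z.1.1.1)) (by
      rintro ⟨⟨⟨j, v⟩, h⟩, t⟩ ⟨⟨⟨j', v'⟩, h'⟩, t'⟩ e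
      obtain ⟨e1, rfl⟩ := Prod.mk.inj e
      obtain rfl : t = t' := by simpa [st, show v j = 0 from h, show v' j = 0 from h'] using congrFun e1 j
      obtain rfl : v = v' := add_right_cancel e1
      rfl)
    have m2 : MeasurePreserving (fun (w : α → ℤ → Bool → I) i => G (w i)) _ _ :=
      ⟨by fun_prop, Measure.infinitePi_map_pi (fun _ : α => Measure.infinitePi fun _ : ℤ => ν1) fun _ => mG⟩
    let T : α → Bool → Set ℤ := fun i b => {t | st i t ∈ cond b A B}
    let R : ∀ s : Set ℤ, (s → Fin 64) → ℤ → Fin 64 := fun s x t => if h : t ∈ s then x ⟨t, h⟩ else 0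
    have mR : ∀ s, Measurable (R s) := fun s => measurable_pi_lambda _ fun t => by
      by_cases h : t ∈ s
      · simp only [R, dif_pos h]; fun_prop
      · simp only [R, dif_neg h]; fun_prop
    let Y : α → Bool → (ℤ → Fin 64) → ℤ → Fin 64 := fun i b x => R (T i b) fun t => x t
    have mY : ∀ i b, Measurable (Y i b) := fun i b =>
      (mR _).comp (f := fun (x : ℤ → Fin 64) (t : T i b) => x t) (by fun_prop)
    have mY' : ∀ i b, Measurable fun w : α → ℤ → Fin 64 => Y i b (w i) := fun i b =>
      (mY i b).comp (measurable_pi_apply i)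
    set κ := (Measure.infinitePi fun _ : ℤ => ν1).map G
    have i0 : ∀ i, IndepFun (Y i true) (Y i false) κ := fun i =>
      (hI (T i true) (T i false) fun a ha b hb => by
        have := hAB _ ha _ hb
        simp only [st, Pi.add_apply, add_sub_add_left_eq_sub] at this
        rw [← l1_single i.1.1, Pi.single_sub]
        exact this).comp (mR _) (mR _)
    have i1 := iIndepFun_uncurry' (P := Measure.infinitePi fun _ => κ)
      (X := fun i b (w : α → ℤ → Fin 64) => Y i b (w i)) mY'
      (iIndepFun_infinitePi (X := fun i x b => Y i b x) fun i => measurable_pi_lambda _ (mY i))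
      fun i => iIndep_bool (indep_mp (measurePreserving_eval_infinitePi (fun _ => κ) i) (mY i true) (mY i false) (i0 i))
    have i2 := indep_iSup_of_disjoint (fun p : α × Bool => (mY' p.1 p.2).comap_le) i1.iIndep
      (S := {p | p.2 = true}) (T := {p | p.2 = false}) (Set.disjoint_left.2 fun p h h' => by simp_all)
    let Z : ∀ s : Set (Fin d → ℤ), (α → ℤ → Fin 64) → s → Fin (64 ^ d) := fun s w a =>
      finFunctionFinEquiv fun j => w ⟨(j, update a.1 j 0), update_self ..⟩ (a.1 j)
    have e0 : ∀ (a : Fin d → ℤ) j, update a j 0 + Pi.single j (a j) = a := fun a j => by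
      funext i; by_cases h : i = j <;> simp [h]
    have mZ : ∀ b : Bool, Measurable[⨆ p ∈ {p : α × Bool | p.2 = b},
        MeasurableSpace.comap (fun w : α → ℤ → Fin 64 => Y p.1 p.2 (w p.1)) inferInstance] (Z (cond b A B)) := by
      intro b
      refine @measurable_pi_lambda _ _ _ (_) _ _ fun a => (measurable_of_finite _).comp
        (@measurable_pi_lambda _ _ _ (_) _ _ fun j => ?_)
      let i : α := ⟨(j, update a.1 j 0), update_self ..⟩
      have h : a.1 j ∈ T i b := by simpa [T, st, i, e0] using a.2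
      have : (fun w : α → ℤ → Fin 64 => w i (a.1 j)) = (fun x => x (a.1 j)) ∘ fun w => Y i b (w i) := by
        funext w; simp [Y, R, h]
      rw [this]
      exact (measurable_pi_apply _).comp (Measurable.of_comap_le (le_iSup₂_of_le (i, b) rfl le_rfl))
    have i3 : IndepFun (Z A) (Z B) _ :=
      (IndepFun_iff_Indep _ _ _).2 (indep_of_indep_of_le i2 (mZ true).comap_le (mZ false).comap_le)
    have mZ' : ∀ s, Measurable (Z s) := fun s => measurable_pi_lambda _ fun a => (measurable_of_finite _).comp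
      (by fun_prop)
    have e1 : ∀ s : Set (Fin d → ℤ), (fun y (a : s) => F y a) = Z s ∘ (fun (w : α → ℤ → Bool → I) i => G (w i)) ∘
        fun y a b => y (st a b) a.1.1 := fun s => by
      funext y a
      refine congrArg finFunctionFinEquiv (funext fun j => ?_)
      conv_lhs => rw [← e0 a.1 j, hl]
      rfl
    rw [e1, e1]
    exact indep_mp (m2.comp m1) (mZ' A) (mZ' B) i3
  · have h := ENNReal.tendsto_ofReal (Real.tendsto_exp_atBot.comp
      (tendsto_natCast_atTop_atTop.const_mul_atTop_of_neg (show (-1 : ℝ) < 0 by norm_num)))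
    rw [ENNReal.ofReal_zero] at h
    refine nonpos_iff_eq_zero.1 (ge_of_tendsto h ((tl 1).mono fun r hr => (measure_mono fun y hy hy' => ?_).trans hr))
    exact hy ⟨r, hy'⟩

end Pool.Agent.Results.MP_9e03f2_pr.Superexp
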